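import Pool.Agent.H10.BK2
import Pool.Agent.H10.Swindle

namespace Pool.Agent.Results.MP_882ac6_an.NotIso

open Pool.Agent.H10.BK Pool.Agent.H10.PosIso

theorem result (κ : Type) [Uncountable κ] [TopologicalSpace κ] [DiscreteTopology κ] :
    (∀ n : ℕ, 1 ≤ n → IsEmpty (C(Fin n → B κ, ℝ) ≃L[ℝ] C(ℕ → OnePoint κ, ℝ))) ∧
    IsEmpty (C(ℕ → B κ, ℝ) ≃L[ℝ] C(ℕ → OnePoint κ, ℝ)) ∧
    IsEmpty (C(B κ, ℝ) ≃L[ℝ] C(ℕ → OnePoint κ, ℝ)) ∧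
    ∀ (i : C(B κ, ℝ) →L[ℝ] C(ℕ → OnePoint κ, ℝ)) (p : C(ℕ → OnePoint κ, ℝ) →L[ℝ] C(B κ, ℝ)),
      ¬ ∀ f, p (i f) = f := by
  have key : ∀ (ι : Type) (j : ι), IsEmpty (C(ι → B κ, ℝ) ≃L[ℝ] C(ℕ → OnePoint κ, ℝ)) :=
    fun ι j => ⟨fun T => no_compl
      (T.toContinuousLinearMap.comp (pre ⟨fun x : ι → B κ => x j, continuous_apply j⟩))
      ((pre ⟨fun (x : B κ) (_ : ι) => x, continuous_pi fun _ => continuous_id⟩).comp
        T.symm.toContinuousLinearMap) fun f => by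
        ext x
        simp⟩
  refine ⟨fun n hn => key _ ⟨0, hn⟩, key _ 0, ⟨fun T => no_compl T.toContinuousLinearMap
    T.symm.toContinuousLinearMap fun f => by simp⟩, fun i p h => no_compl i p h⟩

end Pool.Agent.Results.MP_882ac6_an.NotIso
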